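import Mathlib
import Pool.Agent.X257.MQ.Core

/-!
# Malle's conjecture for `C₂ ≀ H` and the inverse Galois problem for `H`

`H` is a finite group with a subgroup `U` which contains no nontrivial normal subgroup of `H` and
with `8 u (u + 1) ≤ |H|`, `u` the index of `U`. The group `H` acts on itself by multiplication, and
`G = C₂ ≀ H` acts on `H × {0, 1}`. Over every number field `K` the asymptotic formula of Malle's
conjecture holds for `G` if and only if `H` is a Galois group over `K`; there is a number field `K₀`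
such that it holds over all number fields `K ⊇ K₀`.

The groups `H = B × (A ≀ S_m)`, `A`, `B` any finite groups and `m` large, have this property, and are
Galois groups over `K` if and only if `B` is.
-/

set_option autoImplicit false

open Filter

namespace Pool.Agent.Results.MP_a3214d_nt.WreathProductsInverseGalois

/-- `G ≤ S_d` is, up to a bijection `f` of `{1, ..., d}` with `H × {0, 1}`, the wreath product
`C₂ ≀ H`: it consists of all permutations `π` for which there is `h ∈ H` such that `π` maps the block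
`{x} × {0, 1}` to the block `{h x} × {0, 1}`, for all `x ∈ H`. -/
def IsC2Wreath (H : Type) [Group H] {d : ℕ} (G : Subgroup (Equiv.Perm (Fin d))) : Prop :=
  ∃ f : Fin d ≃ H × Bool, ∀ π : Equiv.Perm (Fin d), π ∈ G ↔ ∃ h : H, ∀ i, (f (π i)).1 = h * (f i).1

/-- `H` has a faithful transitive action on `u` points (the cosets of `U`), `8 u (u + 1) ≤ |H|`. -/
def HasSmallAction (H : Type) [Group H] : Prop :=
  ∃ U : Subgroup H, U.normalCore = ⊥ ∧ 8 * U.index * (U.index + 1) ≤ Nat.card H

/-- `H` is a Galois group over `K`. -/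
def IsGaloisGroupOver (K : Type) [Field K] (H : Type) [Group H] : Prop :=
  ∃ F : IntermediateField K (AlgebraicClosure K), FiniteDimensional K F ∧ IsGalois K F ∧
    Nonempty ((F ≃ₐ[K] F) ≃* H)

/-- The wreath product `A ≀ S_m = A^m ⋊ S_m`. -/
abbrev Wreath (A : Type) [Group A] (m : ℕ) : Type :=
  (Fin m → A) ⋊[mulAutArrow] Equiv.Perm (Fin m)

/-- The fields `L` between `K` and its algebraic closure, of degree `d` over `K`, whose Galois group,
acting on the embeddings, is `G` (up to numbering), and whose relative discriminant has norm at most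
`B` (that is, `|d_L| ≤ B |d_K| ^ d`). -/
def Ext (K : Type) [Field K] [NumberField K] (d : ℕ) (G : Subgroup (Equiv.Perm (Fin d)))
    (B : ℝ) : Set (IntermediateField K (AlgebraicClosure K)) :=
  {L | Module.finrank K L = d ∧
    (∃ e : (L →ₐ[K] AlgebraicClosure K) ≃ Fin d, ∀ π : Equiv.Perm (Fin d),
      π ∈ G ↔ ∃ σ : AlgebraicClosure K ≃ₐ[K] AlgebraicClosure K,
        ∀ φ : L →ₐ[K] AlgebraicClosure K, e (σ.toAlgHom.comp φ) = π (e φ)) ∧
    ∃ h : NumberField L,
      ((|@NumberField.discr L _ h| : ℤ) : ℝ) ≤ B * ((|NumberField.discr K| : ℤ) : ℝ) ^ d}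

/-- `N(K, G; B)`: the number of these fields up to `K`-isomorphism. -/
noncomputable def N (K : Type) [Field K] [NumberField K] (d : ℕ)
    (G : Subgroup (Equiv.Perm (Fin d))) (B : ℝ) : ℕ :=
  Nat.card (Quot fun L L' : Ext K d G B => Nonempty (L.1 ≃ₐ[K] L'.1))

/-- The asymptotic formula of Malle's conjecture for `(K, G)`, with some constants. -/
def Malle (K : Type) [Field K] [NumberField K] (d : ℕ) (G : Subgroup (Equiv.Perm (Fin d))) :
    Prop :=
  ∃ c : ℝ, 0 < c ∧ ∃ a : ℝ, 0 < a ∧ ∃ b : ℕ, 1 ≤ b ∧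
    Tendsto (fun B : ℝ => (N K d G B : ℝ) / (B ^ a * Real.log B ^ (b - 1))) atTop (nhds c)

/-- The group `C₂ ≀ H` exists, and is transitive. -/
theorem exists_group (H : Type) [Group H] [Finite H] : ∃ (d : ℕ)
    (G : Subgroup (Equiv.Perm (Fin d))), d = 2 * Nat.card H ∧ IsC2Wreath H G ∧
      ∀ i j : Fin d, ∃ g ∈ G, g i = j := by
  have hcard : Nat.card (H × Bool) = 2 * Nat.card H := by
    rw [Nat.card_prod, mul_comm]
    simp
  let f : Fin (2 * Nat.card H) ≃ H × Bool := (Finite.equivFinOfCardEq hcard).symm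
  let G : Subgroup (Equiv.Perm (Fin (2 * Nat.card H))) :=
    { carrier := {π | ∃ h : H, ∀ i, (f (π i)).1 = h * (f i).1}
      one_mem' := ⟨1, fun i => by simp⟩
      mul_mem' := by
        rintro π ρ ⟨h, hh⟩ ⟨h', hh'⟩
        refine ⟨h * h', fun i => ?_⟩
        rw [Equiv.Perm.mul_apply, hh, hh', mul_assoc]
      inv_mem' := by
        rintro π ⟨h, hh⟩
        refine ⟨h⁻¹, fun i => ?_⟩
        have h1 := hh (π⁻¹ i)
        rw [show π (π⁻¹ i) = i from π.apply_symm_apply i] at h1
        rw [h1, inv_mul_cancel_left] }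
  refine ⟨2 * Nat.card H, G, rfl, ⟨f, fun π => Iff.rfl⟩, fun i j => ?_⟩
  let t : Equiv.Perm (H × Bool) :=
    (Equiv.mulLeft ((f j).1 * (f i).1⁻¹)).prodCongr (Equiv.swap (f i).2 (f j).2)
  refine ⟨f.trans (t.trans f.symm), ⟨(f j).1 * (f i).1⁻¹, fun x => ?_⟩, ?_⟩
  · simp [t]
  · change f.symm (t (f i)) = j
    rw [Equiv.symm_apply_eq]
    exact Prod.ext (by simp [t]) (by simp [t])

theorem tfae (K : Type) [Field K] [NumberField K] (H : Type) [Group H] [Finite H]
    (hH : HasSmallAction H) {d : ℕ} {G : Subgroup (Equiv.Perm (Fin d))} (hG : IsC2Wreath H G) :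
    List.TFAE [IsGaloisGroupOver K H, Malle K d G, ∃ B : ℝ, N K d G B ≠ 0,
      ∃ c : ℝ, 0 < c ∧ Tendsto (fun B : ℝ => (N K d G B : ℝ) / B) atTop (nhds c)] := by
  obtain ⟨U, hU, hc⟩ := hH
  have h2 := Pool.Agent.X257.MQ.two_le_of_small hc
  tfae_have 1 → 4 := by
    intro h
    exact Pool.Agent.TH444.ML.asymp_iso Pool.Agent.TH444.ML.rest K H h2 U hU hc h G hG
  tfae_have 4 → 2 := by
    rintro ⟨c, hc0, hlim⟩
    refine ⟨c, hc0, 1, one_pos, 1, le_rfl, ?_⟩
    simpa using hlim
  tfae_have 2 → 3 := by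
    rintro ⟨c, hc0, a, ha, b, hb, hlim⟩
    obtain ⟨B, hB⟩ := (hlim.eventually (lt_mem_nhds hc0)).exists
    refine ⟨B, fun h5 => ?_⟩
    rw [h5, Nat.cast_zero, zero_div] at hB
    exact lt_irrefl _ hB
  tfae_have 3 → 1 := by
    rintro ⟨X, hX⟩
    have h3 : Nonempty (Quot fun L L' : Ext K d G X => Nonempty (L.1 ≃ₐ[K] L'.1)) := by
      by_contra h4
      rw [not_nonempty_iff] at h4
      exact hX Nat.card_of_isEmpty
    obtain ⟨q⟩ := h3
    obtain ⟨L, -⟩ := Quot.exists_rep q
    exact Pool.Agent.X257.MQ.gal_of_cnt (H := H) (G := G) hG (X := X) ⟨L.1, L.2⟩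
  tfae_finish

theorem small_prod (A B : Type) [Group A] [Finite A] [Group B] [Finite B] (m : ℕ)
    (hm : ((3 * Nat.card A + 2).factorial) ^ 3 ≤ m) (hB : Nat.card B ≤ m) :
    HasSmallAction (B × Wreath A m) :=
  Pool.Agent.X257.MQ.prod_small A B m hm hB

theorem gal_iff (K A B : Type) [Field K] [NumberField K] [Group A] [Finite A] [Group B] [Finite B]
    (m : ℕ) (hm : ((3 * Nat.card A + 2).factorial) ^ 3 ≤ m) :
    IsGaloisGroupOver K (B × Wreath A m) ↔ IsGaloisGroupOver K B :=
  ⟨fun h => Pool.Agent.X257.MQ.gal_quot (MonoidHom.fst B (Wreath A m))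
    (fun b => ⟨(b, 1), rfl⟩) h, fun h => Pool.Agent.X257.MQ.gal_prod K A B m hm h⟩

end Pool.Agent.Results.MP_a3214d_nt.WreathProductsInverseGalois

open Pool.Agent.Results.MP_a3214d_nt.WreathProductsInverseGalois in
/-- **Malle's conjecture for `C₂ ≀ H` and the inverse Galois problem.**

1. `H` is any finite group with a faithful transitive action on `u` points, `8 u (u + 1) ≤ |H|`, and
`G = C₂ ≀ H` (which exists, and is transitive). Over every number field `K` the asymptotic formula of
Malle's conjecture holds for `G` if and only if `H` is a Galois group over `K`, and then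
`N(B) ~ c B` for some `c > 0`; otherwise `N(B) = 0` for all `B`. There is a number field `K₀` such that
the conjecture holds for `G` over all number fields `K ⊇ K₀`.
2. This applies to `H = B × (A ≀ S_m)` for all finite groups `A`, `B` and all `m ≥ |B|`,
`m ≥ ((3 |A| + 2)!) ^ 3`; and `H` is a Galois group over `K` if and only if `B` is.
3. Over every number field `K`, the conjecture for all the groups in 1. is equivalent to the inverse
Galois problem over `K`. -/
theorem Pool.Agent.Results.MP_a3214d_nt.WreathProductsInverseGalois.result :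
    (∀ (H : Type) [Group H] [Finite H], HasSmallAction H →
      (∃ (d : ℕ) (G : Subgroup (Equiv.Perm (Fin d))), d = 2 * Nat.card H ∧ IsC2Wreath H G ∧
        ∀ i j : Fin d, ∃ g ∈ G, g i = j) ∧
      ∀ (d : ℕ) (G : Subgroup (Equiv.Perm (Fin d))), IsC2Wreath H G →
        (∀ (K : Type) [Field K] [NumberField K],
          List.TFAE [IsGaloisGroupOver K H, Malle K d G, ∃ B : ℝ, N K d G B ≠ 0,
            ∃ c : ℝ, 0 < c ∧ Tendsto (fun B : ℝ => (N K d G B : ℝ) / B) atTop (nhds c)]) ∧
        ∃ (K₀ : Type) (_ : Field K₀), NumberField K₀ ∧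
          ∀ (K : Type) [Field K] [NumberField K] [Algebra K₀ K], Malle K d G) ∧
    (∀ (A B : Type) [Group A] [Finite A] [Group B] [Finite B] (m : ℕ),
      ((3 * Nat.card A + 2).factorial) ^ 3 ≤ m → Nat.card B ≤ m →
        HasSmallAction (B × Wreath A m) ∧ ∀ (K : Type) [Field K] [NumberField K],
          (IsGaloisGroupOver K (B × Wreath A m) ↔ IsGaloisGroupOver K B)) ∧
    (∀ (K : Type) [Field K] [NumberField K],
      (∀ (B : Type) [Group B] [Finite B], IsGaloisGroupOver K B) ↔
        ∀ (H : Type) [Group H] [Finite H], HasSmallAction H →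
          ∀ (d : ℕ) (G : Subgroup (Equiv.Perm (Fin d))), IsC2Wreath H G → Malle K d G) := by
  refine ⟨fun H _ _ hH => ⟨exists_group H, fun d G hG => ⟨fun K _ _ => tfae K H hH hG,
    ?_⟩⟩, fun A B _ _ _ _ m hm hB => ⟨small_prod A B m hm hB, fun K _ _ => gal_iff K A B m hm⟩,
    fun K _ _ => ⟨fun h H _ _ hH d G hG => ((tfae K H hH hG).out 0 1).1 (h H),
      fun h B _ _ => ?_⟩⟩
  · obtain ⟨K₀, i₀, hK₀, hr⟩ := Pool.Agent.X257.ML.exists_numberField_gal H
    exact ⟨K₀, i₀, hK₀, fun K _ _ _ => ((tfae K H hH hG).out 0 1).1 (hr K)⟩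
  · let m : ℕ := max (((3 * Nat.card Unit + 2).factorial) ^ 3) (Nat.card B)
    have hm : ((3 * Nat.card Unit + 2).factorial) ^ 3 ≤ m := le_max_left _ _
    have hs := small_prod Unit B m hm (le_max_right _ _)
    have h3 : Finite (Wreath Unit m) := Pool.Agent.H391R2.T4.finite_wr Unit m
    obtain ⟨d, G, -, hG, -⟩ := exists_group (B × Wreath Unit m)
    exact (gal_iff K Unit B m hm).1 (((tfae K _ hs hG).out 0 1).2 (h _ hs d G hG))
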